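import Pool.Agent.Run7.h800.RG.Stm

set_option autoImplicit false

namespace Run7.h887.RG

open MeasureTheory ProbabilityTheory Set Filter Topology
open scoped ENNReal NNReal
open Run7.h800.RG

lemma mm_pos (n : ℕ) : 0 < mm n := by unfold mm; omega

lemma mm_cast (n : ℕ) : ((mm n : ℕ) : ℝ) = 2 * (n : ℝ) + 4 := by unfold mm; push_cast; ring

lemma NN_succ (n : ℕ) : NN (n + 1) = NN n * mm n := rfl

lemma NN_pos (n : ℕ) : 0 < NN n := by
  induction n with
  | zero => exact Nat.one_pos
  | succ n ih => rw [NN_succ]; exact Nat.mul_pos ih (mm_pos n)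

lemma sum_range_mul_split {M : Type*} [AddCommMonoid M] (a b : ℕ) (f : ℕ → M) :
    ∑ k ∈ Finset.range (a * b), f k
      = ∑ j ∈ Finset.range a, ∑ i ∈ Finset.range b, f (b * j + i) := by
  induction a with
  | zero => simp
  | succ a ih =>
    rw [Finset.sum_range_succ, Nat.succ_mul, Finset.sum_range_add, ih]
    congr 1
    apply Finset.sum_congr rfl
    intro i _
    rw [Nat.mul_comm]

lemma ix_div (n : ℕ) (u : ℝ) : ix (n + 1) u / mm n = ix n u := by
  unfold ix
  rw [← Nat.floor_div_natCast]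
  congr 1
  rw [NN_succ]
  push_cast
  have : ((mm n : ℕ) : ℝ) ≠ 0 := by exact_mod_cast (mm_pos n).ne'
  field_simp

lemma wt_succ_add (n x j i : ℕ) (hi : i < mm n) :
    wt (n + 1) x (mm n * j + i) = wt n (x / mm n) j *
      if x % mm n = i then 0 else 1 / ((mm n : ℝ) - 1) := by
  have h1 : (mm n * j + i) / mm n = j := by
    rw [Nat.mul_add_div (mm_pos n), Nat.div_eq_of_lt hi, Nat.add_zero]
  have h2 : (mm n * j + i) % mm n = i := by
    rw [Nat.mul_add_mod, Nat.mod_eq_of_lt hi]
  show wt n (x / mm n) ((mm n * j + i) / mm n) * _ = _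
  rw [h1, h2]

lemma sum_ite (m : ℕ) (r : ℕ) (hr : r < m) (c : ℝ) :
    ∑ i ∈ Finset.range m, (if r = i then 0 else c) = ((m : ℝ) - 1) * c := by
  have h : ∀ i ∈ Finset.range m, (if r = i then (0 : ℝ) else c) = c - (if r = i then c else 0) := by
    intro i _
    split_ifs <;> simp
  rw [Finset.sum_congr rfl h, Finset.sum_sub_distrib, Finset.sum_ite_eq,
    if_pos (Finset.mem_range.2 hr)]
  simp
  ring

lemma mm_sub_one_pos (n : ℕ) : (0 : ℝ) < (mm n : ℝ) - 1 := by
  rw [mm_cast]
  have : (0 : ℝ) ≤ n := Nat.cast_nonneg n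
  linarith

lemma sum_wt (n x j : ℕ) :
    ∑ i ∈ Finset.range (mm n), wt (n + 1) x (mm n * j + i) = wt n (x / mm n) j := by
  have h : ∀ i ∈ Finset.range (mm n), wt (n + 1) x (mm n * j + i) = wt n (x / mm n) j *
      if x % mm n = i then 0 else 1 / ((mm n : ℝ) - 1) := fun i hi =>
    wt_succ_add n x j i (Finset.mem_range.1 hi)
  rw [Finset.sum_congr rfl h, ← Finset.mul_sum, sum_ite (mm n) _ (Nat.mod_lt _ (mm_pos n))]
  have := mm_sub_one_pos n
  field_simp

lemma wt_nonneg_le (n : ℕ) : ∀ x j : ℕ, 0 ≤ wt n x j ∧ wt n x j ≤ (1 / 3) ^ n := by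
  induction n with
  | zero => intro x j; simp [wt]
  | succ n ih =>
    intro x j
    have h := ih (x / mm n) (j / mm n)
    have hm := mm_sub_one_pos n
    have hq : 0 ≤ (if x % mm n = j % mm n then (0 : ℝ) else 1 / ((mm n : ℝ) - 1)) ∧
        (if x % mm n = j % mm n then (0 : ℝ) else 1 / ((mm n : ℝ) - 1)) ≤ 1 / 3 := by
      split_ifs
      · norm_num
      · refine ⟨by positivity, ?_⟩
        apply one_div_le_one_div_of_le (by norm_num)
        rw [mm_cast]
        have : (0 : ℝ) ≤ n := Nat.cast_nonneg n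
        linarith
    constructor
    · exact mul_nonneg h.1 hq.1
    · rw [pow_succ]
      exact mul_le_mul h.2 hq.2 hq.1 (by positivity)

lemma sum_w (n : ℕ) (θ : ℝ) (j : ℕ) :
    ∑ i ∈ Finset.range (mm n), w (n + 1) θ (mm n * j + i) = w n θ j := by
  unfold w
  by_cases hθ : θ < 0
  · simp [hθ]
  · simp only [hθ, if_false]
    rw [sum_wt, ix_div]

theorem t_ARI : S_ARI := by
  refine ⟨sum_w, ?_, ?_, ?_, fun n u _ => ix_div n u, ?_⟩
  · intro n θ
    induction n with
    | zero =>
      by_cases hθ : θ < 0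
      · simp [w, hθ]
      · simp [w, hθ, NN, wt]
    | succ n ih =>
      rw [NN_succ, sum_range_mul_split]
      rw [← ih]
      exact Finset.sum_congr rfl fun j _ => sum_w n θ j
  · intro n θ j
    unfold w
    split_ifs
    · exact ⟨le_refl _, by positivity⟩
    · exact wt_nonneg_le n _ j
  · intro n j
    unfold w
    refine Measurable.ite measurableSet_Iio measurable_const ?_
    have h1 : Measurable fun θ : ℝ => ix n θ := by
      unfold ix
      exact Nat.measurable_floor.comp (measurable_id.mul_const _)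
    exact (measurable_from_nat (f := fun k => wt n k j)).comp h1
  · intro n
    induction n with
    | zero => exact le_refl _
    | succ n ih =>
      rw [NN_succ, pow_succ]
      exact Nat.mul_le_mul ih (by unfold mm; omega)

end Run7.h887.RG
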