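import Pool.Agent.Run7.h887.RG.ARI

set_option autoImplicit false

namespace Run7.h887.RG

open MeasureTheory ProbabilityTheory Set Filter Topology
open scoped ENNReal NNReal
open Run7.h800.RG

/-- the overlap of two parameters -/
noncomputable def SS (n x x' : ℕ) : ℝ :=
  (NN n : ℝ) * ∑ i ∈ Finset.range (NN n), wt n x i * wt n x' i

/-- the exponential moment -/
noncomputable def EE (n j : ℕ) : ℝ :=
  ∑ x ∈ Finset.range (NN n), ∑ x' ∈ Finset.range (NN n),
    wt n x j * wt n x' j * Real.exp (SS n x x')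

/-- the digit factor -/
noncomputable def dg (n r i : ℕ) : ℝ := if r = i then 0 else 1 / ((mm n : ℝ) - 1)

lemma dg_nonneg (n r i : ℕ) : 0 ≤ dg n r i := by
  unfold dg
  have := mm_sub_one_pos n
  split_ifs
  · exact le_refl _
  · positivity

/-- the factor of the overlap -/
noncomputable def chi (n i i' : ℕ) : ℝ :=
  (mm n : ℝ) * ∑ k ∈ Finset.range (mm n), dg n i k * dg n i' k

lemma wt_mul_add (n y i z k : ℕ) (hi : i < mm n) (hk : k < mm n) :
    wt (n + 1) (mm n * y + i) (mm n * z + k) = wt n y z * dg n i k := by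
  rw [wt_succ_add n _ z k hk]
  have h1 : (mm n * y + i) / mm n = y := by
    rw [Nat.mul_add_div (mm_pos n), Nat.div_eq_of_lt hi, Nat.add_zero]
  have h2 : (mm n * y + i) % mm n = i := by
    rw [Nat.mul_add_mod, Nat.mod_eq_of_lt hi]
  rw [h1, h2]
  rfl

lemma chi_nonneg (n i i' : ℕ) : 0 ≤ chi n i i' := by
  unfold chi
  exact mul_nonneg (Nat.cast_nonneg _)
    (Finset.sum_nonneg fun k _ => mul_nonneg (dg_nonneg _ _ _) (dg_nonneg _ _ _))

lemma chi_self (n i : ℕ) (hi : i < mm n) : chi n i i = 1 + 1 / ((mm n : ℝ) - 1) := by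
  unfold chi
  have h : ∀ k ∈ Finset.range (mm n), dg n i k * dg n i k =
      if i = k then 0 else 1 / ((mm n : ℝ) - 1) * (1 / ((mm n : ℝ) - 1)) := by
    intro k _
    unfold dg
    split_ifs <;> simp
  rw [Finset.sum_congr rfl h, sum_ite (mm n) i hi]
  have := mm_sub_one_pos n
  field_simp
  ring

lemma chi_ne (n i i' : ℕ) (hi : i < mm n) (hi' : i' < mm n) (hne : i ≠ i') :
    chi n i i' ≤ 1 := by
  unfold chi
  have h : ∀ k ∈ Finset.range (mm n), dg n i k * dg n i' k =
      (if i = k then 0 else 1 / ((mm n : ℝ) - 1) * (1 / ((mm n : ℝ) - 1)))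
      - (if i' = k then 1 / ((mm n : ℝ) - 1) * (1 / ((mm n : ℝ) - 1)) else 0) := by
    intro k _
    unfold dg
    split_ifs with h1 h2 h2
    · exact absurd (h1.trans h2.symm) hne
    · simp
    · simp
    · simp
  rw [Finset.sum_congr rfl h, Finset.sum_sub_distrib, sum_ite (mm n) i hi, Finset.sum_ite_eq,
    if_pos (Finset.mem_range.2 hi')]
  have hm := mm_sub_one_pos n
  have : (mm n : ℝ) * (((mm n : ℝ) - 1) * (1 / ((mm n : ℝ) - 1) * (1 / ((mm n : ℝ) - 1)))
      - 1 / ((mm n : ℝ) - 1) * (1 / ((mm n : ℝ) - 1)))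
      = (((mm n : ℝ) - 1) ^ 2 - 1) / ((mm n : ℝ) - 1) ^ 2 := by
    field_simp
    ring
  rw [this, div_le_one (by positivity)]
  linarith

lemma SS_succ (n y i y' i' : ℕ) (hi : i < mm n) (hi' : i' < mm n) :
    SS (n + 1) (mm n * y + i) (mm n * y' + i') = SS n y y' * chi n i i' := by
  unfold SS chi
  rw [NN_succ, sum_range_mul_split]
  have h : ∀ z ∈ Finset.range (NN n), ∑ k ∈ Finset.range (mm n),
      wt (n + 1) (mm n * y + i) (mm n * z + k) * wt (n + 1) (mm n * y' + i') (mm n * z + k)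
      = (wt n y z * wt n y' z) * ∑ k ∈ Finset.range (mm n), dg n i k * dg n i' k := by
    intro z _
    rw [Finset.mul_sum]
    apply Finset.sum_congr rfl
    intro k hk
    rw [wt_mul_add n y i z k hi (Finset.mem_range.1 hk),
      wt_mul_add n y' i' z k hi' (Finset.mem_range.1 hk)]
    ring
  rw [Finset.sum_congr rfl h, ← Finset.sum_mul]
  push_cast
  ring

lemma SS_nonneg (n x x' : ℕ) : 0 ≤ SS n x x' := by
  unfold SS
  exact mul_nonneg (Nat.cast_nonneg _)
    (Finset.sum_nonneg fun k _ => mul_nonneg (wt_nonneg_le _ _ _).1 (wt_nonneg_le _ _ _).1)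

lemma SS_le (n : ℕ) : ∀ x x' : ℕ, SS n x x' ≤ Real.sqrt ((n : ℝ) + 1) := by
  induction n with
  | zero => intro x x'; simp [SS, NN, wt]
  | succ n ih =>
    intro x x'
    have hx : x = mm n * (x / mm n) + x % mm n := (Nat.div_add_mod x (mm n)).symm
    have hx' : x' = mm n * (x' / mm n) + x' % mm n := (Nat.div_add_mod x' (mm n)).symm
    have hi := Nat.mod_lt x (mm_pos n)
    have hi' := Nat.mod_lt x' (mm_pos n)
    rw [hx, hx', SS_succ n _ _ _ _ hi hi']
    have hm := mm_sub_one_pos n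
    have hchi : chi n (x % mm n) (x' % mm n) ≤ 1 + 1 / ((mm n : ℝ) - 1) := by
      by_cases h : x % mm n = x' % mm n
      · rw [← h, chi_self n _ hi]
      · have h1 := chi_ne n _ _ hi hi' h
        have : 0 ≤ 1 / ((mm n : ℝ) - 1) := by positivity
        linarith
    have h1 : SS n (x / mm n) (x' / mm n) * chi n (x % mm n) (x' % mm n)
        ≤ Real.sqrt ((n : ℝ) + 1) * (1 + 1 / ((mm n : ℝ) - 1)) :=
      mul_le_mul (ih _ _) hchi (chi_nonneg _ _ _) (Real.sqrt_nonneg _)
    refine h1.trans ?_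
    apply Real.le_sqrt_of_sq_le
    rw [mul_pow, Real.sq_sqrt (by positivity), mm_cast]
    have hn : (0 : ℝ) ≤ n := Nat.cast_nonneg n
    have : (1 + 1 / (2 * (n : ℝ) + 4 - 1)) ^ 2 = (2 * (n : ℝ) + 4) ^ 2 / (2 * (n : ℝ) + 3) ^ 2 := by
      have h3 : (2 * (n : ℝ) + 4 - 1) = 2 * n + 3 := by ring
      rw [h3]
      field_simp
      ring
    rw [this, ← mul_div_assoc, div_le_iff₀ (by positivity)]
    push_cast
    nlinarith [hn]

lemma exp_bound (n i i' : ℕ) (s : ℝ) (hi : i < mm n) (hi' : i' < mm n) (hs0 : 0 ≤ s)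
    (hs : s ≤ Real.sqrt ((n : ℝ) + 1)) :
    Real.exp (s * chi n i i') ≤ Real.exp s * (1 + if i = i' then 2 * s / ((mm n : ℝ) - 1) else 0) := by
  have hm := mm_sub_one_pos n
  split_ifs with h
  · subst h
    rw [chi_self n i hi, mul_add, mul_one, Real.exp_add]
    apply mul_le_mul_of_nonneg_left _ (Real.exp_pos s).le
    have hn : (0 : ℝ) ≤ n := Nat.cast_nonneg n
    have h1 : s ≤ (mm n : ℝ) - 1 := by
      refine hs.trans ?_
      rw [mm_cast]
      apply Real.sqrt_le_iff.2
      constructor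
      · linarith
      · nlinarith
    have h2 : s * (1 / ((mm n : ℝ) - 1)) ≤ 1 := by
      rw [mul_one_div, div_le_one hm]; exact h1
    have h3 : 0 ≤ s * (1 / ((mm n : ℝ) - 1)) := by positivity
    have h4 : Real.exp (s * (1 / ((mm n : ℝ) - 1))) ≤ 1 + 2 * (s * (1 / ((mm n : ℝ) - 1))) := by
      set t := s * (1 / ((mm n : ℝ) - 1)) with ht
      have := Real.abs_exp_sub_one_le (x := t) (by rw [abs_of_nonneg h3]; exact h2)
      rw [abs_of_nonneg h3] at this
      have h5 := (abs_le.1 this).2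
      linarith
    refine h4.trans (le_of_eq ?_)
    ring
  · rw [add_zero, mul_one]
    apply Real.exp_le_exp.2
    have := chi_ne n i i' hi hi' h
    nlinarith [chi_nonneg n i i']

lemma digit_sum (n k : ℕ) (hk : k < mm n) (c : ℝ) :
    ∑ i ∈ Finset.range (mm n), ∑ i' ∈ Finset.range (mm n),
      dg n i k * dg n i' k * (1 + if i = i' then c else 0)
      = 1 + c / ((mm n : ℝ) - 1) := by
  have hm := mm_sub_one_pos n
  have hsum : ∑ i ∈ Finset.range (mm n), dg n i k = 1 := by
    unfold dg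
    have : ∀ i ∈ Finset.range (mm n), (if i = k then (0 : ℝ) else 1 / ((mm n : ℝ) - 1)) =
      if k = i then 0 else 1 / ((mm n : ℝ) - 1) := by
      intro i _
      simp only [eq_comm]
    rw [Finset.sum_congr rfl this, sum_ite (mm n) k hk]
    field_simp
  have hsq : ∑ i ∈ Finset.range (mm n), dg n i k * dg n i k = 1 / ((mm n : ℝ) - 1) := by
    have : ∀ i ∈ Finset.range (mm n), dg n i k * dg n i k =
      if k = i then 0 else 1 / ((mm n : ℝ) - 1) * (1 / ((mm n : ℝ) - 1)) := by
      intro i _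
      unfold dg
      by_cases h : i = k
      · simp [h]
      · simp [h, Ne.symm h]
    rw [Finset.sum_congr rfl this, sum_ite (mm n) k hk]
    field_simp
  have h1 : ∀ i ∈ Finset.range (mm n), ∑ i' ∈ Finset.range (mm n),
      dg n i k * dg n i' k * (1 + if i = i' then c else 0)
      = dg n i k + dg n i k * dg n i k * c := by
    intro i hi
    have : ∀ i' ∈ Finset.range (mm n), dg n i k * dg n i' k * (1 + if i = i' then c else 0)
        = dg n i k * dg n i' k + (if i = i' then dg n i k * dg n i' k * c else 0) := by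
      intro i' _
      split_ifs <;> ring
    rw [Finset.sum_congr rfl this, Finset.sum_add_distrib, ← Finset.mul_sum, hsum,
      Finset.sum_ite_eq, if_pos hi, mul_one]
  rw [Finset.sum_congr rfl h1, Finset.sum_add_distrib, hsum, ← Finset.sum_mul, hsq]
  ring

lemma EE_succ (n z k : ℕ) (hk : k < mm n) :
    EE (n + 1) (mm n * z + k) ≤
      EE n z * (1 + 2 * Real.sqrt ((n : ℝ) + 1) / ((mm n : ℝ) - 1) ^ 2) := by
  have hm := mm_sub_one_pos n
  unfold EE
  rw [NN_succ, sum_range_mul_split]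
  have hstep : ∀ y ∈ Finset.range (NN n),
      ∑ i ∈ Finset.range (mm n), ∑ x' ∈ Finset.range (NN n * mm n),
        wt (n + 1) (mm n * y + i) (mm n * z + k) * wt (n + 1) x' (mm n * z + k)
          * Real.exp (SS (n + 1) (mm n * y + i) x')
      ≤ ∑ y' ∈ Finset.range (NN n), wt n y z * wt n y' z * Real.exp (SS n y y')
          * (1 + 2 * Real.sqrt ((n : ℝ) + 1) / ((mm n : ℝ) - 1) ^ 2) := by
    intro y _
    have h1 : ∀ i ∈ Finset.range (mm n), ∑ x' ∈ Finset.range (NN n * mm n),
        wt (n + 1) (mm n * y + i) (mm n * z + k) * wt (n + 1) x' (mm n * z + k)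
          * Real.exp (SS (n + 1) (mm n * y + i) x')
        = ∑ y' ∈ Finset.range (NN n), ∑ i' ∈ Finset.range (mm n),
          wt n y z * wt n y' z * (dg n i k * dg n i' k * Real.exp (SS n y y' * chi n i i')) := by
      intro i hi
      rw [sum_range_mul_split]
      apply Finset.sum_congr rfl
      intro y' _
      apply Finset.sum_congr rfl
      intro i' hi'
      rw [wt_mul_add n y i z k (Finset.mem_range.1 hi) hk,
        wt_mul_add n y' i' z k (Finset.mem_range.1 hi') hk,
        SS_succ n y i y' i' (Finset.mem_range.1 hi) (Finset.mem_range.1 hi')]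
      ring
    rw [Finset.sum_congr rfl h1, Finset.sum_comm]
    apply Finset.sum_le_sum
    intro y' _
    have hs0 := SS_nonneg n y y'
    have hs := SS_le n y y'
    have hw : 0 ≤ wt n y z * wt n y' z := mul_nonneg (wt_nonneg_le _ _ _).1 (wt_nonneg_le _ _ _).1
    calc ∑ i ∈ Finset.range (mm n), ∑ i' ∈ Finset.range (mm n),
          wt n y z * wt n y' z * (dg n i k * dg n i' k * Real.exp (SS n y y' * chi n i i'))
        ≤ ∑ i ∈ Finset.range (mm n), ∑ i' ∈ Finset.range (mm n),
          wt n y z * wt n y' z * Real.exp (SS n y y') * (dg n i k * dg n i' k *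
            (1 + if i = i' then 2 * SS n y y' / ((mm n : ℝ) - 1) else 0)) := by
          apply Finset.sum_le_sum
          intro i hi
          apply Finset.sum_le_sum
          intro i' hi'
          have hb := exp_bound n i i' (SS n y y') (Finset.mem_range.1 hi) (Finset.mem_range.1 hi')
            hs0 hs
          have hd : 0 ≤ dg n i k * dg n i' k := mul_nonneg (dg_nonneg _ _ _) (dg_nonneg _ _ _)
          calc wt n y z * wt n y' z * (dg n i k * dg n i' k * Real.exp (SS n y y' * chi n i i'))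
              ≤ wt n y z * wt n y' z * (dg n i k * dg n i' k * (Real.exp (SS n y y') *
                (1 + if i = i' then 2 * SS n y y' / ((mm n : ℝ) - 1) else 0))) :=
                mul_le_mul_of_nonneg_left (mul_le_mul_of_nonneg_left hb hd) hw
            _ = _ := by ring
      _ = wt n y z * wt n y' z * Real.exp (SS n y y') *
            (1 + 2 * SS n y y' / ((mm n : ℝ) - 1) / ((mm n : ℝ) - 1)) := by
          rw [← digit_sum n k hk (2 * SS n y y' / ((mm n : ℝ) - 1)), Finset.mul_sum]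
          apply Finset.sum_congr rfl
          intro i _
          rw [Finset.mul_sum]
      _ ≤ _ := by
          apply mul_le_mul_of_nonneg_left _ (mul_nonneg hw (Real.exp_pos _).le)
          have : 2 * SS n y y' / ((mm n : ℝ) - 1) / ((mm n : ℝ) - 1)
              = 2 * SS n y y' / ((mm n : ℝ) - 1) ^ 2 := by
            rw [div_div, sq]
          rw [this]
          gcongr
  refine (Finset.sum_le_sum hstep).trans (le_of_eq ?_)
  rw [Finset.sum_mul]
  apply Finset.sum_congr rfl
  intro y _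
  rw [Finset.sum_mul]

lemma EE_nonneg (n j : ℕ) : 0 ≤ EE n j := by
  unfold EE
  exact Finset.sum_nonneg fun x _ => Finset.sum_nonneg fun x' _ =>
    mul_nonneg (mul_nonneg (wt_nonneg_le _ _ _).1 (wt_nonneg_le _ _ _).1) (Real.exp_pos _).le

lemma tele (n : ℕ) : 2 * Real.sqrt ((n : ℝ) + 1) / ((mm n : ℝ) - 1) ^ 2 ≤
    1 / Real.sqrt ((n : ℝ) + 1) - 1 / Real.sqrt ((n : ℝ) + 2) := by
  have hn : (0 : ℝ) ≤ n := Nat.cast_nonneg n
  set a := Real.sqrt ((n : ℝ) + 1) with ha
  set b := Real.sqrt ((n : ℝ) + 2) with hb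
  have ha2 : a ^ 2 = n + 1 := Real.sq_sqrt (by positivity)
  have hb2 : b ^ 2 = n + 2 := Real.sq_sqrt (by positivity)
  have ha0 : 0 < a := Real.sqrt_pos.2 (by positivity)
  have hb0 : 0 < b := Real.sqrt_pos.2 (by positivity)
  have hab : a ≤ b := Real.sqrt_le_sqrt (by linarith)
  have hmm : ((mm n : ℝ) - 1) ^ 2 = (a ^ 2 + b ^ 2) ^ 2 := by
    rw [mm_cast, ha2, hb2]; ring
  have hdiff : 1 / a - 1 / b = 1 / (a * b * (a + b)) := by
    have h1 : (b - a) * (b + a) = 1 := by nlinarith
    have h2 : 1 / a - 1 / b = (b - a) / (a * b) := by field_simp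
    rw [h2, div_eq_div_iff (by positivity) (by positivity)]
    calc (b - a) * (a * b * (a + b)) = ((b - a) * (b + a)) * (a * b) := by ring
      _ = 1 * (a * b) := by rw [h1]
  rw [hmm, hdiff, div_le_div_iff₀ (by positivity) (by positivity), one_mul]
  nlinarith [sq_nonneg (a ^ 2 - b ^ 2), mul_nonneg ha0.le (sub_nonneg.2 hab),
    mul_nonneg (mul_nonneg (sq_nonneg a) hb0.le) (sub_nonneg.2 hab)]

lemma EE_le (n : ℕ) : ∀ j : ℕ, j < NN n →
    EE n j ≤ Real.exp (2 - 1 / Real.sqrt ((n : ℝ) + 1)) := by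
  induction n with
  | zero =>
    intro j hj
    have hj0 : j = 0 := by
      have : NN 0 = 1 := rfl
      omega
    subst hj0
    simp [EE, NN, wt, SS]
    apply le_of_eq
    norm_num
  | succ n ih =>
    intro j hj
    have hx : j = mm n * (j / mm n) + j % mm n := (Nat.div_add_mod j (mm n)).symm
    have hi := Nat.mod_lt j (mm_pos n)
    have hz : j / mm n < NN n := by
      rw [NN_succ] at hj
      exact Nat.div_lt_of_lt_mul (by rw [Nat.mul_comm]; exact hj)
    rw [hx]
    refine (EE_succ n _ _ hi).trans ?_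
    have h1 := ih _ hz
    have h2 := tele n
    have h3 : 1 + 2 * Real.sqrt ((n : ℝ) + 1) / ((mm n : ℝ) - 1) ^ 2 ≤
        Real.exp (1 / Real.sqrt ((n : ℝ) + 1) - 1 / Real.sqrt ((n : ℝ) + 2)) := by
      have := Real.add_one_le_exp (1 / Real.sqrt ((n : ℝ) + 1) - 1 / Real.sqrt ((n : ℝ) + 2))
      linarith
    have h4 : (0 : ℝ) ≤ 1 + 2 * Real.sqrt ((n : ℝ) + 1) / ((mm n : ℝ) - 1) ^ 2 := by
      positivity
    calc EE n (j / mm n) * (1 + 2 * Real.sqrt ((n : ℝ) + 1) / ((mm n : ℝ) - 1) ^ 2)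
        ≤ Real.exp (2 - 1 / Real.sqrt ((n : ℝ) + 1)) *
          Real.exp (1 / Real.sqrt ((n : ℝ) + 1) - 1 / Real.sqrt ((n : ℝ) + 2)) :=
          mul_le_mul h1 h3 h4 (Real.exp_pos _).le
      _ = _ := by
          rw [← Real.exp_add]
          congr 1
          push_cast
          rw [show (n : ℝ) + 1 + 1 = n + 2 by ring]
          ring

lemma ix_eq (n x : ℕ) (θ : ℝ) (h : θ ∈ Ico ((x : ℝ) / NN n) (((x : ℝ) + 1) / NN n)) :
    ix n θ = x := by
  have hN : (0 : ℝ) < NN n := by exact_mod_cast NN_pos n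
  have h1 := (div_le_iff₀ hN).1 h.1
  have h2 := (lt_div_iff₀ hN).1 h.2
  unfold ix
  rw [Nat.floor_eq_iff (le_trans (Nat.cast_nonneg x) h1)]
  exact ⟨h1, h2⟩

lemma cover (n : ℕ) : Ico (0 : ℝ) 1 =
    ⋃ x ∈ Finset.range (NN n), Ico ((x : ℝ) / NN n) (((x : ℝ) + 1) / NN n) := by
  have hN : (0 : ℝ) < NN n := by exact_mod_cast NN_pos n
  ext θ
  simp only [mem_iUnion, Finset.mem_range, exists_prop]
  constructor
  · intro h
    have h0 : 0 ≤ θ * NN n := mul_nonneg h.1 hN.le
    refine ⟨ix n θ, ?_, ?_, ?_⟩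
    · unfold ix
      rw [Nat.floor_lt h0]
      have := h.2
      nlinarith
    · rw [div_le_iff₀ hN]
      exact Nat.floor_le h0
    · rw [lt_div_iff₀ hN]
      exact Nat.lt_floor_add_one _
  · rintro ⟨x, hx, h1, h2⟩
    constructor
    · exact le_trans (by positivity) h1
    · refine lt_of_lt_of_le h2 ?_
      rw [div_le_one hN]
      exact_mod_cast hx

lemma int_PE (n : ℕ) (g : ℕ → ℝ) (F : ℝ → ℝ) (hF1 : F (-1) = 0)
    (hF : ∀ θ ∈ Ico (0 : ℝ) 1, F θ = g (ix n θ)) :
    ∫ θ, F θ ∂PE = (1 / 2) * ((1 / (NN n : ℝ)) * ∑ x ∈ Finset.range (NN n), g x) := by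
  have hN : (0 : ℝ) < NN n := by exact_mod_cast NN_pos n
  have hmeas : ∀ x ∈ Finset.range (NN n),
      MeasurableSet (Ico ((x : ℝ) / NN n) (((x : ℝ) + 1) / NN n)) := fun x _ => measurableSet_Ico
  have hsub : ∀ x ∈ Finset.range (NN n), ∀ θ ∈ Ico ((x : ℝ) / NN n) (((x : ℝ) + 1) / NN n),
      F θ = g x := by
    intro x hx θ hθ
    have h1 : θ ∈ Ico (0 : ℝ) 1 := by
      rw [cover n]
      simp only [mem_iUnion, exists_prop]
      exact ⟨x, hx, hθ⟩
    rw [hF θ h1, ix_eq n x θ hθ]
  have hint : ∀ x ∈ Finset.range (NN n),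
      IntegrableOn F (Ico ((x : ℝ) / NN n) (((x : ℝ) + 1) / NN n)) volume := by
    intro x hx
    have hc : IntegrableOn (fun _ : ℝ => g x) (Ico ((x : ℝ) / NN n) (((x : ℝ) + 1) / NN n)) volume :=
      integrableOn_const (by simp)
    exact hc.congr_fun (fun θ hθ => (hsub x hx θ hθ).symm) measurableSet_Ico
  have hintall : IntegrableOn F (Ico 0 1) volume := by
    rw [cover n]
    exact integrableOn_finset_iUnion.2 hint
  have hval : ∫ θ in Ico (0 : ℝ) 1, F θ = (1 / (NN n : ℝ)) * ∑ x ∈ Finset.range (NN n), g x := by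
    rw [cover n, integral_biUnion_finset _ hmeas _ hint, Finset.mul_sum]
    · apply Finset.sum_congr rfl
      intro x hx
      rw [setIntegral_congr_fun measurableSet_Ico (fun θ hθ => hsub x hx θ hθ), setIntegral_const]
      have : volume.real (Ico ((x : ℝ) / NN n) (((x : ℝ) + 1) / NN n)) = 1 / (NN n : ℝ) := by
        rw [Real.volume_real_Ico_of_le]
        · field_simp
          ring
        · gcongr
          linarith
      rw [this, smul_eq_mul]
    · intro x _ y _ hxy
      rw [Function.onFun, Set.disjoint_left]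
      intro θ h1 h2
      exact hxy ((ix_eq n x θ h1).symm.trans (ix_eq n y θ h2))
  have hd : Integrable F (Measure.dirac (-1 : ℝ)) := integrable_dirac (by simp [hF1])
  unfold PE
  rw [integral_add_measure (hd.smul_measure (by simp)) (hintall.smul_measure (by simp)),
    integral_smul_measure, integral_smul_measure, integral_dirac, hF1, hval]
  simp

theorem t_ENE : S_ENE := by
  refine ⟨Real.exp 2 / 4, by positivity, ?_⟩
  intro n j hj
  have hN : (0 : ℝ) < NN n := by exact_mod_cast NN_pos n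
  have hw1 : ∀ i, w n (-1) i = 0 := by
    intro i
    unfold w
    rw [if_pos (by norm_num)]
  have hw : ∀ θ ∈ Ico (0 : ℝ) 1, ∀ i, w n θ i = wt n (ix n θ) i := by
    intro θ hθ i
    unfold w
    rw [if_neg (not_lt.2 hθ.1)]
  have hin : ∀ θ ∈ Ico (0 : ℝ) 1, ∫ θ', (NN n : ℝ) ^ 2 * (w n θ j * w n θ' j *
      Real.exp ((NN n : ℝ) * ∑ i ∈ Finset.range (NN n), w n θ i * w n θ' i)) ∂PE =
      (1 / 2) * ((1 / (NN n : ℝ)) * ∑ x' ∈ Finset.range (NN n),
        (NN n : ℝ) ^ 2 * (wt n (ix n θ) j * wt n x' j * Real.exp (SS n (ix n θ) x'))) := by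
    intro θ hθ
    apply int_PE n (fun x' => (NN n : ℝ) ^ 2 *
      (wt n (ix n θ) j * wt n x' j * Real.exp (SS n (ix n θ) x')))
    · simp [hw1]
    · intro θ' hθ'
      simp only [hw θ hθ, hw θ' hθ']
      rfl
  rw [int_PE n (fun x => (1 / 2) * ((1 / (NN n : ℝ)) * ∑ x' ∈ Finset.range (NN n),
        (NN n : ℝ) ^ 2 * (wt n x j * wt n x' j * Real.exp (SS n x x')))) _ (by simp [hw1]) hin]
  have h1 : (1 / 2 : ℝ) * ((1 / (NN n : ℝ)) * ∑ x ∈ Finset.range (NN n),
      (1 / 2) * ((1 / (NN n : ℝ)) * ∑ x' ∈ Finset.range (NN n),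
        (NN n : ℝ) ^ 2 * (wt n x j * wt n x' j * Real.exp (SS n x x')))) = EE n j / 4 := by
    unfold EE
    simp only [Finset.mul_sum, Finset.sum_div]
    apply Finset.sum_congr rfl
    intro x _
    apply Finset.sum_congr rfl
    intro x' _
    field_simp
    ring
  rw [h1]
  have h2 := EE_le n j hj
  have h3 : Real.exp (2 - 1 / Real.sqrt ((n : ℝ) + 1)) ≤ Real.exp 2 := by
    apply Real.exp_le_exp.2
    have : 0 ≤ 1 / Real.sqrt ((n : ℝ) + 1) := by positivity
    linarith
  linarith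

end Run7.h887.RG
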